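import Mathlib

open Polynomial

namespace Pool.Agent.Results.MP_106bf9_an.Counter

/-- The set of distinct zeros of `P` and of its derivatives of orders `r k`. -/
def zeroUnion {m : ℕ} (P : ℂ[X]) (r : Fin m → ℕ) : Set ℂ :=
  {z | P.IsRoot z ∨ ∃ k : Fin m, (derivative^[r k] P).IsRoot z}

theorem result : ¬ ∀ (n m : ℕ) (r : Fin m → ℕ) (P : ℂ[X]), 2 ≤ n → 1 ≤ m → m ≤ n - 1 →
    StrictMono r → (∀ k, 1 ≤ r k ∧ r k ≤ n - 1) → P.natDegree = n →
    (∃ a b : ℂ, a ≠ b ∧ P.IsRoot a ∧ P.IsRoot b) →
    ((m + 2 : ℕ) : ℕ∞) ≤ (zeroUnion P r).encard := by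
  intro h
  have hP : ((X ^ 2 - 1) ^ 2 : ℂ[X]) = X ^ 4 - C 2 * X ^ 2 + 1 := by
    have : (C 2 : ℂ[X]) = 2 := rfl
    rw [this]; ring
  have hdeg : ((X ^ 2 - 1) ^ 2 : ℂ[X]).natDegree = 4 := by
    rw [hP]; compute_degree!
  have h1 := h 4 2 ![1, 3] ((X ^ 2 - 1) ^ 2) (by norm_num) (by norm_num) (by norm_num)
    (by
      intro i j hij
      fin_cases i <;> fin_cases j <;> simp_all)
    (by intro k; fin_cases k <;> simp) hdeg
    ⟨1, -1, by norm_num, by simp, by simp⟩
  have hsub : zeroUnion ((X ^ 2 - 1) ^ 2 : ℂ[X]) ![1, 3] ⊆ ({0, 1, -1} : Set ℂ) := by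
    intro z hz
    have key : z * (z - 1) * (z + 1) = 0 := by
      rcases hz with hz | ⟨k, hz⟩
      · simp only [IsRoot.def, eval_pow, eval_sub, eval_X, eval_one] at hz
        have : z ^ 2 - 1 = 0 := pow_eq_zero_iff (two_ne_zero) |>.1 hz
        linear_combination z * this
      · fin_cases k
        · rw [hP] at hz
          simp at hz
          linear_combination (1 / 4 : ℂ) * hz
        · rw [hP] at hz
          simp [Function.iterate_succ] at hz
          rcases hz with hz | hz | hz
          · norm_num at hz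
          · norm_num at hz
          · simp [hz]
    simp only [Set.mem_insert_iff, Set.mem_singleton_iff]
    rcases mul_eq_zero.1 key with h2 | h2
    · rcases mul_eq_zero.1 h2 with h3 | h3
      · exact Or.inl h3
      · exact Or.inr (Or.inl (by linear_combination h3))
    · exact Or.inr (Or.inr (by linear_combination h2))
  have h3 : ({0, 1, -1} : Set ℂ).encard ≤ 3 := by
    refine (Set.encard_insert_le _ _).trans ?_
    have : ({1, -1} : Set ℂ).encard ≤ 2 := by
      refine (Set.encard_insert_le _ _).trans ?_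
      simp; norm_num
    calc ({1, -1} : Set ℂ).encard + 1 ≤ 2 + 1 := by gcongr
      _ = 3 := by norm_num
  have h4 := h1.trans ((Set.encard_le_encard hsub).trans h3)
  norm_num at h4

end Pool.Agent.Results.MP_106bf9_an.Counter
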